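import Mathlib

set_option autoImplicit false

namespace Pool.Agent.Results.MP_f9eabf_al.Exact

/-- The minor with rows `α` and columns `β`, both increasing sequences of length `k`. -/
noncomputable def minor {n k : ℕ} (A : Matrix (Fin n) (Fin n) ℂ) (α β : Fin k ↪o Fin n) : ℂ :=
  (A.submatrix α β).det

/-- All principal minors are positive real numbers. -/
def IsP {n : ℕ} (A : Matrix (Fin n) (Fin n) ℂ) : Prop :=
  ∀ k : ℕ, 0 < k → ∀ α : Fin k ↪o Fin n, 0 < (minor A α α).re ∧ (minor A α α).im = 0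

/-- Products of opposite almost principal minors are nonnegative real numbers. -/
def WeaklySignSymmetric {n : ℕ} (A : Matrix (Fin n) (Fin n) ℂ) : Prop :=
  ∀ k : ℕ, ∀ α β : Fin k ↪o Fin n,
    (Finset.univ.image α ∩ Finset.univ.image β).card + 1 = k →
      0 ≤ (minor A α β * minor A β α).re ∧ (minor A α β * minor A β α).im = 0

def IsGKK {n : ℕ} (A : Matrix (Fin n) (Fin n) ℂ) : Prop := IsP A ∧ WeaklySignSymmetric A

/-- The least real eigenvalue, and `⊤` if there is none. -/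
noncomputable def lowest {n : ℕ} (A : Matrix (Fin n) (Fin n) ℂ) : EReal :=
  sInf ((fun x : ℝ => (x : EReal)) '' {x : ℝ | (x : ℂ) ∈ spectrum ℂ A})

def IsOmega {n : ℕ} (A : Matrix (Fin n) (Fin n) ℂ) : Prop :=
  ∀ k l : ℕ, 0 < l → ∀ (α : Fin k ↪o Fin n) (β : Fin l ↪o Fin n), Set.range β ⊆ Set.range α →
    lowest (A.submatrix α α) ≤ lowest (A.submatrix β β) ∧ lowest (A.submatrix β β) < ⊤

def IsTau {n : ℕ} (A : Matrix (Fin n) (Fin n) ℂ) : Prop := IsOmega A ∧ IsP A ∧ 0 ≤ lowest A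

def Stable {n : ℕ} (A : Matrix (Fin n) (Fin n) ℂ) : Prop := ∀ μ ∈ spectrum ℂ A, 0 < μ.re

/-! Stability up to order four -/

theorem mem_spec {n : ℕ} {A : Matrix (Fin n) (Fin n) ℂ} {μ : ℂ} :
    μ ∈ spectrum ℂ A ↔ (Matrix.scalar _ μ - A).det = 0 := by
  rw [Matrix.mem_spectrum_iff_isRoot_charpoly, Polynomial.IsRoot.def, Matrix.eval_charpoly]

theorem det4 {R : Type*} [CommRing R] (M : Matrix (Fin 4) (Fin 4) R) : M.det =
      M 0 0 * M 1 1 * M 2 2 * M 3 3 - M 0 0 * M 1 1 * M 2 3 * M 3 2 - M 0 0 * M 1 2 * M 2 1 * M 3 3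
      + M 0 0 * M 1 2 * M 2 3 * M 3 1 + M 0 0 * M 1 3 * M 2 1 * M 3 2 - M 0 0 * M 1 3 * M 2 2 * M 3 1
      - M 0 1 * M 1 0 * M 2 2 * M 3 3 + M 0 1 * M 1 0 * M 2 3 * M 3 2 + M 0 1 * M 1 2 * M 2 0 * M 3 3
      - M 0 1 * M 1 2 * M 2 3 * M 3 0 - M 0 1 * M 1 3 * M 2 0 * M 3 2 + M 0 1 * M 1 3 * M 2 2 * M 3 0
      + M 0 2 * M 1 0 * M 2 1 * M 3 3 - M 0 2 * M 1 0 * M 2 3 * M 3 1 - M 0 2 * M 1 1 * M 2 0 * M 3 3
      + M 0 2 * M 1 1 * M 2 3 * M 3 0 + M 0 2 * M 1 3 * M 2 0 * M 3 1 - M 0 2 * M 1 3 * M 2 1 * M 3 0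
      - M 0 3 * M 1 0 * M 2 1 * M 3 2 + M 0 3 * M 1 0 * M 2 2 * M 3 1 + M 0 3 * M 1 1 * M 2 0 * M 3 2
      - M 0 3 * M 1 1 * M 2 2 * M 3 0 - M 0 3 * M 1 2 * M 2 0 * M 3 1 + M 0 3 * M 1 2 * M 2 1 * M 3 0 := by
  simp [Matrix.det_succ_row_zero, Fin.sum_univ_succ, Fin.succAbove]
  ring

def em1 {n : ℕ} (a : Fin n) : Fin 1 ↪o Fin n :=
  OrderEmbedding.ofStrictMono ![a] (Subsingleton.strictMono _)

def em2 {n : ℕ} (a b : Fin n) (h : a < b) : Fin 2 ↪o Fin n :=
  OrderEmbedding.ofStrictMono ![a, b] (by simp [Fin.strictMono_iff_lt_succ, h])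

def em3 {n : ℕ} (a b c : Fin n) (h : a < b ∧ b < c) : Fin 3 ↪o Fin n :=
  OrderEmbedding.ofStrictMono ![a, b, c]
    (by simp [Fin.strictMono_iff_lt_succ, Fin.forall_fin_succ, h])

def em4 {n : ℕ} (a b c d : Fin n) (h : a < b ∧ b < c ∧ c < d) : Fin 4 ↪o Fin n :=
  OrderEmbedding.ofStrictMono ![a, b, c, d]
    (by simp [Fin.strictMono_iff_lt_succ, Fin.forall_fin_succ, h])

theorem minor1 {n : ℕ} (A : Matrix (Fin n) (Fin n) ℂ) (a a' : Fin n) :
    minor A (em1 a) (em1 a') = A a a' := by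
  simp [minor, em1]

theorem minor2 {n : ℕ} (A : Matrix (Fin n) (Fin n) ℂ) (a b a' b' : Fin n) (h h') :
    minor A (em2 a b h) (em2 a' b' h') = A a a' * A b b' - A a b' * A b a' := by
  simp [minor, em2, Matrix.det_fin_two]

theorem minor3 {n : ℕ} (A : Matrix (Fin n) (Fin n) ℂ) (a b c a' b' c' : Fin n) (h h') :
    minor A (em3 a b c h) (em3 a' b' c' h') =
      A a a' * A b b' * A c c' - A a a' * A b c' * A c b' - A a b' * A b a' * A c c' + A a b' * A b c' * A c a'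
      + A a c' * A b a' * A c b' - A a c' * A b b' * A c a' := by
  simp [minor, em3, Matrix.det_fin_three]

theorem minor4 {n : ℕ} (A : Matrix (Fin n) (Fin n) ℂ) (a b c d a' b' c' d' : Fin n) (h h') :
    minor A (em4 a b c d h) (em4 a' b' c' d' h') =
      A a a' * A b b' * A c c' * A d d' - A a a' * A b b' * A c d' * A d c' - A a a' * A b c' * A c b' * A d d'
      + A a a' * A b c' * A c d' * A d b' + A a a' * A b d' * A c b' * A d c' - A a a' * A b d' * A c c' * A d b'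
      - A a b' * A b a' * A c c' * A d d' + A a b' * A b a' * A c d' * A d c' + A a b' * A b c' * A c a' * A d d'
      - A a b' * A b c' * A c d' * A d a' - A a b' * A b d' * A c a' * A d c' + A a b' * A b d' * A c c' * A d a'
      + A a c' * A b a' * A c b' * A d d' - A a c' * A b a' * A c d' * A d b' - A a c' * A b b' * A c a' * A d d'
      + A a c' * A b b' * A c d' * A d a' + A a c' * A b d' * A c a' * A d b' - A a c' * A b d' * A c b' * A d a'
      - A a d' * A b a' * A c b' * A d c' + A a d' * A b a' * A c c' * A d b' + A a d' * A b b' * A c a' * A d c'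
      - A a d' * A b b' * A c c' * A d a' - A a d' * A b c' * A c a' * A d b' + A a d' * A b c' * A c b' * A d a' := by
  simp [minor, em4, det4]

theorem IsGKK.real {n k : ℕ} {A : Matrix (Fin n) (Fin n) ℂ} (hA : IsGKK A) (α : Fin k ↪o Fin n)
    (hk : 0 < k) : ∃ p : ℝ, 0 < p ∧ (p : ℂ) = minor A α α :=
  ⟨_, (hA.1 k hk α).1, Complex.ext (by simp) (by simp [(hA.1 k hk α).2])⟩

theorem IsGKK.ineq {n k : ℕ} {A : Matrix (Fin n) (Fin n) ℂ} (hA : IsGKK A)
    (α β : Fin k ↪o Fin n) (h : (Finset.univ.image α ∩ Finset.univ.image β).card + 1 = k)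
    {x y : ℝ} (e : ((y - x : ℝ) : ℂ) = minor A α β * minor A β α) : x ≤ y := by
  have := (hA.2 k α β h).1
  rw [← e, Complex.ofReal_re] at this
  linarith

theorem chain1 {a b y z t : ℝ} (hb : 0 < b) (hz : 0 < z) (h1 : 1 * y ≤ a * b)
    (h2 : b * t ≤ y * z) : t ≤ a * z := by
  refine le_of_mul_le_mul_left ?_ hb
  nlinarith [mul_le_mul_of_nonneg_right h1 hz.le]

theorem chain2 {a b c y z t : ℝ} (ha : 0 < a) (hb : 0 < b) (hz : 0 < z) (h1 : a * y ≤ c * b)
    (h2 : b * t ≤ y * z) : a * t ≤ c * z := by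
  refine le_of_mul_le_mul_left ?_ hb
  nlinarith [mul_le_mul_of_nonneg_right h1 hz.le, mul_le_mul_of_nonneg_left h2 ha.le]

theorem hurwitz2 {E1 E2 : ℝ} (h1 : 0 < E1) (h2 : 0 < E2) {μ : ℂ}
    (h : μ ^ 2 - E1 * μ + E2 = 0) : 0 < μ.re := by
  by_contra hn
  push Not at hn
  have hr := congrArg Complex.re h
  have hi := congrArg Complex.im h
  simp [pow_succ] at hr hi
  generalize μ.re = x at *
  generalize μ.im = y at *
  have : y * (2 * x - E1) = 0 := by linarith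
  rcases mul_eq_zero.1 this with h0 | h0
  · subst h0; nlinarith
  · linarith

theorem hurwitz3 {E1 E2 E3 : ℝ} (h1 : 0 < E1) (h2 : 0 < E2) (h3 : 0 < E3) (hd : E3 < E1 * E2)
    {μ : ℂ} (h : μ ^ 3 - E1 * μ ^ 2 + E2 * μ - E3 = 0) : 0 < μ.re := by
  by_contra hn
  push Not at hn
  have hr := congrArg Complex.re h
  have hi := congrArg Complex.im h
  simp [pow_succ] at hr hi
  obtain ⟨s, hs, e⟩ : ∃ s, 0 ≤ s ∧ μ.re = -s := ⟨-μ.re, by linarith, by ring⟩
  rw [e] at hr hi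
  generalize μ.im = y at *
  have : y * (3 * s ^ 2 - y ^ 2 + 2 * E1 * s + E2) = 0 := by linarith
  rcases mul_eq_zero.1 this with h0 | h0
  · subst h0
    have : 0 < s ^ 3 + E1 * s ^ 2 + E2 * s + E3 := by positivity
    linarith
  · have h4 : E1 * E2 - E3 = -2 * s * (4 * s ^ 2 + 4 * E1 * s + E1 ^ 2 + E2) := by
      linear_combination hr + (3 * s + E1) * h0
    have : 0 ≤ 2 * s * (4 * s ^ 2 + 4 * E1 * s + E1 ^ 2 + E2) := by positivity
    linarith

theorem hurwitz4 {E1 E2 E3 E4 : ℝ} (h1 : 0 < E1) (h2 : 0 < E2) (h3 : 0 < E3) (h4 : 0 < E4)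
    (hd : 3 * E3 ≤ E1 * E2) (hd' : 3 * (E1 * E4) ≤ E2 * E3)
    {μ : ℂ} (h : μ ^ 4 - E1 * μ ^ 3 + E2 * μ ^ 2 - E3 * μ + E4 = 0) : 0 < μ.re := by
  by_contra hn
  push Not at hn
  have hr := congrArg Complex.re h
  have hi := congrArg Complex.im h
  simp [pow_succ] at hr hi
  obtain ⟨s, hs, e⟩ : ∃ s, 0 ≤ s ∧ μ.re = -s := ⟨-μ.re, by linarith, by ring⟩
  rw [e] at hr hi
  generalize μ.im = y at *
  have : y * (4 * s ^ 3 - 4 * s * y ^ 2 + E1 * (3 * s ^ 2 - y ^ 2) + 2 * E2 * s + E3) = 0 := by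
    linarith
  rcases mul_eq_zero.1 this with h0 | h0
  · subst h0
    have : 0 < s ^ 4 + E1 * s ^ 3 + E2 * s ^ 2 + E3 * s + E4 := by positivity
    linarith
  · obtain ⟨c, hc⟩ : ∃ c, E2 = c + (s ^ 2 + y ^ 2) - 2 * s * (E1 + 2 * s) :=
      ⟨E2 - (s ^ 2 + y ^ 2) + 2 * s * (E1 + 2 * s), by ring⟩
    have e3 : E3 = -2 * s * c + (E1 + 2 * s) * (s ^ 2 + y ^ 2) := by
      rw [hc] at h0; linear_combination h0
    have e4 : E4 = (s ^ 2 + y ^ 2) * c := by
      rw [hc, e3] at hr; linear_combination hr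
    have h5 : E1 * E2 * E3 - E3 ^ 2 - E1 ^ 2 * E4 =
        -2 * s * (E1 + 2 * s) * ((s ^ 2 + y ^ 2 - c) ^ 2 + E1 * E3) := by
      rw [hc, e4, e3]; ring
    have h6 : 0 ≤ 2 * s * (E1 + 2 * s) * ((s ^ 2 + y ^ 2 - c) ^ 2 + E1 * E3) := by positivity
    have h7 := mul_le_mul_of_nonneg_left hd h3.le
    have h8 := mul_le_mul_of_nonneg_left hd' h1.le
    have h9 : 0 < E1 * E2 * E3 := by positivity
    nlinarith

theorem stable1 {A : Matrix (Fin 1) (Fin 1) ℂ} (hA : IsGKK A) : Stable A := by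
  intro μ hμ
  obtain ⟨p0, hp0, ep0⟩ := hA.real (em1 0) (by norm_num)
  simp only [minor1] at ep0
  rw [mem_spec, Matrix.det_fin_one] at hμ
  simp only [Matrix.sub_apply, Matrix.scalar_apply, Matrix.diagonal_apply_eq] at hμ
  rw [sub_eq_zero.1 hμ, ← ep0]
  exact hp0

theorem stable2 {A : Matrix (Fin 2) (Fin 2) ℂ} (hA : IsGKK A) : Stable A := by
  intro μ hμ
  obtain ⟨p0, hp0, ep0⟩ := hA.real (em1 0) (by norm_num)
  obtain ⟨p1, hp1, ep1⟩ := hA.real (em1 1) (by norm_num)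
  obtain ⟨p01, hp01, ep01⟩ := hA.real (em2 0 1 (by decide)) (by norm_num)
  simp only [minor1, minor2] at ep0 ep1 ep01
  rw [mem_spec, Matrix.det_fin_two] at hμ
  simp [Matrix.sub_apply, Matrix.scalar_apply] at hμ
  refine hurwitz2 (E1 := p0 + p1) (E2 := p01) (by positivity) (by positivity) ?_
  push_cast
  rw [ep0, ep1, ep01]
  linear_combination hμ

theorem stable3 {A : Matrix (Fin 3) (Fin 3) ℂ} (hA : IsGKK A) : Stable A := by
  intro μ hμ
  obtain ⟨p0, hp0, ep0⟩ := hA.real (em1 0) (by norm_num)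
  obtain ⟨p1, hp1, ep1⟩ := hA.real (em1 1) (by norm_num)
  obtain ⟨p2, hp2, ep2⟩ := hA.real (em1 2) (by norm_num)
  obtain ⟨p01, hp01, ep01⟩ := hA.real (em2 0 1 (by decide)) (by norm_num)
  obtain ⟨p02, hp02, ep02⟩ := hA.real (em2 0 2 (by decide)) (by norm_num)
  obtain ⟨p12, hp12, ep12⟩ := hA.real (em2 1 2 (by decide)) (by norm_num)
  obtain ⟨p012, hp012, ep012⟩ := hA.real (em3 0 1 2 (by decide)) (by norm_num)
  simp only [minor1, minor2, minor3] at ep0 ep1 ep2 ep01 ep02 ep12 ep012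
  have w_01 : 1 * p01 ≤ p0 * p1 :=
    hA.ineq (em1 0) (em1 1) (by decide) (by
      push_cast
      rw [ep0, ep1, ep01, minor1, minor1]
      ring)
  have w_02 : 1 * p02 ≤ p0 * p2 :=
    hA.ineq (em1 0) (em1 2) (by decide) (by
      push_cast
      rw [ep0, ep2, ep02, minor1, minor1]
      ring)
  have w_12 : 1 * p12 ≤ p1 * p2 :=
    hA.ineq (em1 1) (em1 2) (by decide) (by
      push_cast
      rw [ep1, ep2, ep12, minor1, minor1]
      ring)
  have w0_12 : p0 * p012 ≤ p01 * p02 :=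
    hA.ineq (em2 0 1 (by decide)) (em2 0 2 (by decide)) (by decide) (by
      push_cast
      rw [ep01, ep02, ep012, ep0, minor2, minor2]
      ring)
  have w1_02 : p1 * p012 ≤ p01 * p12 :=
    hA.ineq (em2 0 1 (by decide)) (em2 1 2 (by decide)) (by decide) (by
      push_cast
      rw [ep01, ep12, ep012, ep1, minor2, minor2]
      ring)
  have w2_01 : p2 * p012 ≤ p02 * p12 :=
    hA.ineq (em2 0 2 (by decide)) (em2 1 2 (by decide)) (by decide) (by
      push_cast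
      rw [ep02, ep12, ep012, ep2, minor2, minor2]
      ring)
  rw [mem_spec, Matrix.det_fin_three] at hμ
  simp [Matrix.sub_apply, Matrix.scalar_apply] at hμ
  have f : p012 ≤ p0 * p12 := chain1 hp1 hp12 w_01 w1_02
  refine hurwitz3 (E1 := p0 + p1 + p2) (E2 := p01 + p02 + p12) (E3 := p012) (by positivity) (by positivity)
    (by positivity) ?_ ?_
  · have : 0 < p0 * (p01 + p02) + (p1 + p2) * (p01 + p02 + p12) := by positivity
    linarith
  · push_cast
    rw [ep0, ep1, ep2, ep01, ep02, ep12, ep012]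
    linear_combination hμ

theorem stable4 {A : Matrix (Fin 4) (Fin 4) ℂ} (hA : IsGKK A) : Stable A := by
  intro μ hμ
  obtain ⟨p0, hp0, ep0⟩ := hA.real (em1 0) (by norm_num)
  obtain ⟨p1, hp1, ep1⟩ := hA.real (em1 1) (by norm_num)
  obtain ⟨p2, hp2, ep2⟩ := hA.real (em1 2) (by norm_num)
  obtain ⟨p3, hp3, ep3⟩ := hA.real (em1 3) (by norm_num)
  obtain ⟨p01, hp01, ep01⟩ := hA.real (em2 0 1 (by decide)) (by norm_num)
  obtain ⟨p02, hp02, ep02⟩ := hA.real (em2 0 2 (by decide)) (by norm_num)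
  obtain ⟨p03, hp03, ep03⟩ := hA.real (em2 0 3 (by decide)) (by norm_num)
  obtain ⟨p12, hp12, ep12⟩ := hA.real (em2 1 2 (by decide)) (by norm_num)
  obtain ⟨p13, hp13, ep13⟩ := hA.real (em2 1 3 (by decide)) (by norm_num)
  obtain ⟨p23, hp23, ep23⟩ := hA.real (em2 2 3 (by decide)) (by norm_num)
  obtain ⟨p012, hp012, ep012⟩ := hA.real (em3 0 1 2 (by decide)) (by norm_num)
  obtain ⟨p013, hp013, ep013⟩ := hA.real (em3 0 1 3 (by decide)) (by norm_num)
  obtain ⟨p023, hp023, ep023⟩ := hA.real (em3 0 2 3 (by decide)) (by norm_num)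
  obtain ⟨p123, hp123, ep123⟩ := hA.real (em3 1 2 3 (by decide)) (by norm_num)
  obtain ⟨p0123, hp0123, ep0123⟩ := hA.real (em4 0 1 2 3 (by decide)) (by norm_num)
  simp only [minor1, minor2, minor3, minor4] at ep0 ep1 ep2 ep3 ep01 ep02 ep03 ep12 ep13 ep23 ep012 ep013 ep023 ep123 ep0123
  have w_01 : 1 * p01 ≤ p0 * p1 :=
    hA.ineq (em1 0) (em1 1) (by decide) (by
      push_cast
      rw [ep0, ep1, ep01, minor1, minor1]
      ring)
  have w_02 : 1 * p02 ≤ p0 * p2 :=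
    hA.ineq (em1 0) (em1 2) (by decide) (by
      push_cast
      rw [ep0, ep2, ep02, minor1, minor1]
      ring)
  have w_03 : 1 * p03 ≤ p0 * p3 :=
    hA.ineq (em1 0) (em1 3) (by decide) (by
      push_cast
      rw [ep0, ep3, ep03, minor1, minor1]
      ring)
  have w_12 : 1 * p12 ≤ p1 * p2 :=
    hA.ineq (em1 1) (em1 2) (by decide) (by
      push_cast
      rw [ep1, ep2, ep12, minor1, minor1]
      ring)
  have w_13 : 1 * p13 ≤ p1 * p3 :=
    hA.ineq (em1 1) (em1 3) (by decide) (by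
      push_cast
      rw [ep1, ep3, ep13, minor1, minor1]
      ring)
  have w_23 : 1 * p23 ≤ p2 * p3 :=
    hA.ineq (em1 2) (em1 3) (by decide) (by
      push_cast
      rw [ep2, ep3, ep23, minor1, minor1]
      ring)
  have w0_12 : p0 * p012 ≤ p01 * p02 :=
    hA.ineq (em2 0 1 (by decide)) (em2 0 2 (by decide)) (by decide) (by
      push_cast
      rw [ep01, ep02, ep012, ep0, minor2, minor2]
      ring)
  have w0_13 : p0 * p013 ≤ p01 * p03 :=
    hA.ineq (em2 0 1 (by decide)) (em2 0 3 (by decide)) (by decide) (by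
      push_cast
      rw [ep01, ep03, ep013, ep0, minor2, minor2]
      ring)
  have w0_23 : p0 * p023 ≤ p02 * p03 :=
    hA.ineq (em2 0 2 (by decide)) (em2 0 3 (by decide)) (by decide) (by
      push_cast
      rw [ep02, ep03, ep023, ep0, minor2, minor2]
      ring)
  have w1_02 : p1 * p012 ≤ p01 * p12 :=
    hA.ineq (em2 0 1 (by decide)) (em2 1 2 (by decide)) (by decide) (by
      push_cast
      rw [ep01, ep12, ep012, ep1, minor2, minor2]
      ring)
  have w1_03 : p1 * p013 ≤ p01 * p13 :=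
    hA.ineq (em2 0 1 (by decide)) (em2 1 3 (by decide)) (by decide) (by
      push_cast
      rw [ep01, ep13, ep013, ep1, minor2, minor2]
      ring)
  have w1_23 : p1 * p123 ≤ p12 * p13 :=
    hA.ineq (em2 1 2 (by decide)) (em2 1 3 (by decide)) (by decide) (by
      push_cast
      rw [ep12, ep13, ep123, ep1, minor2, minor2]
      ring)
  have w2_01 : p2 * p012 ≤ p02 * p12 :=
    hA.ineq (em2 0 2 (by decide)) (em2 1 2 (by decide)) (by decide) (by
      push_cast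
      rw [ep02, ep12, ep012, ep2, minor2, minor2]
      ring)
  have w2_03 : p2 * p023 ≤ p02 * p23 :=
    hA.ineq (em2 0 2 (by decide)) (em2 2 3 (by decide)) (by decide) (by
      push_cast
      rw [ep02, ep23, ep023, ep2, minor2, minor2]
      ring)
  have w2_13 : p2 * p123 ≤ p12 * p23 :=
    hA.ineq (em2 1 2 (by decide)) (em2 2 3 (by decide)) (by decide) (by
      push_cast
      rw [ep12, ep23, ep123, ep2, minor2, minor2]
      ring)
  have w3_01 : p3 * p013 ≤ p03 * p13 :=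
    hA.ineq (em2 0 3 (by decide)) (em2 1 3 (by decide)) (by decide) (by
      push_cast
      rw [ep03, ep13, ep013, ep3, minor2, minor2]
      ring)
  have w3_02 : p3 * p023 ≤ p03 * p23 :=
    hA.ineq (em2 0 3 (by decide)) (em2 2 3 (by decide)) (by decide) (by
      push_cast
      rw [ep03, ep23, ep023, ep3, minor2, minor2]
      ring)
  have w3_12 : p3 * p123 ≤ p13 * p23 :=
    hA.ineq (em2 1 3 (by decide)) (em2 2 3 (by decide)) (by decide) (by
      push_cast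
      rw [ep13, ep23, ep123, ep3, minor2, minor2]
      ring)
  have w01_23 : p01 * p0123 ≤ p012 * p013 :=
    hA.ineq (em3 0 1 2 (by decide)) (em3 0 1 3 (by decide)) (by decide) (by
      push_cast
      rw [ep012, ep013, ep0123, ep01, minor3, minor3]
      ring)
  have w02_13 : p02 * p0123 ≤ p012 * p023 :=
    hA.ineq (em3 0 1 2 (by decide)) (em3 0 2 3 (by decide)) (by decide) (by
      push_cast
      rw [ep012, ep023, ep0123, ep02, minor3, minor3]
      ring)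
  have w03_12 : p03 * p0123 ≤ p013 * p023 :=
    hA.ineq (em3 0 1 3 (by decide)) (em3 0 2 3 (by decide)) (by decide) (by
      push_cast
      rw [ep013, ep023, ep0123, ep03, minor3, minor3]
      ring)
  have w12_03 : p12 * p0123 ≤ p012 * p123 :=
    hA.ineq (em3 0 1 2 (by decide)) (em3 1 2 3 (by decide)) (by decide) (by
      push_cast
      rw [ep012, ep123, ep0123, ep12, minor3, minor3]
      ring)
  have w13_02 : p13 * p0123 ≤ p013 * p123 :=
    hA.ineq (em3 0 1 3 (by decide)) (em3 1 2 3 (by decide)) (by decide) (by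
      push_cast
      rw [ep013, ep123, ep0123, ep13, minor3, minor3]
      ring)
  have w23_01 : p23 * p0123 ≤ p023 * p123 :=
    hA.ineq (em3 0 2 3 (by decide)) (em3 1 2 3 (by decide)) (by decide) (by
      push_cast
      rw [ep023, ep123, ep0123, ep23, minor3, minor3]
      ring)
  have f0_12 : p012 ≤ p0 * p12 :=
    chain1 (y := p01) hp1 hp12 (by linarith [w_01]) (by linarith [w1_02])
  have f1_02 : p012 ≤ p1 * p02 :=
    chain1 (y := p01) hp0 hp02 (by linarith [w_01]) (by linarith [w0_12])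
  have f2_01 : p012 ≤ p2 * p01 :=
    chain1 (y := p02) hp0 hp01 (by linarith [w_02]) (by linarith [w0_12])
  have f0_13 : p013 ≤ p0 * p13 :=
    chain1 (y := p01) hp1 hp13 (by linarith [w_01]) (by linarith [w1_03])
  have f1_03 : p013 ≤ p1 * p03 :=
    chain1 (y := p01) hp0 hp03 (by linarith [w_01]) (by linarith [w0_13])
  have f3_01 : p013 ≤ p3 * p01 :=
    chain1 (y := p03) hp0 hp01 (by linarith [w_03]) (by linarith [w0_13])
  have f0_23 : p023 ≤ p0 * p23 :=
    chain1 (y := p02) hp2 hp23 (by linarith [w_02]) (by linarith [w2_03])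
  have f2_03 : p023 ≤ p2 * p03 :=
    chain1 (y := p02) hp0 hp03 (by linarith [w_02]) (by linarith [w0_23])
  have f3_02 : p023 ≤ p3 * p02 :=
    chain1 (y := p03) hp0 hp02 (by linarith [w_03]) (by linarith [w0_23])
  have f1_23 : p123 ≤ p1 * p23 :=
    chain1 (y := p12) hp2 hp23 (by linarith [w_12]) (by linarith [w2_13])
  have f2_13 : p123 ≤ p2 * p13 :=
    chain1 (y := p12) hp1 hp13 (by linarith [w_12]) (by linarith [w1_23])
  have f3_12 : p123 ≤ p3 * p12 :=
    chain1 (y := p13) hp1 hp12 (by linarith [w_13]) (by linarith [w1_23])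
  have g0_1 : p0 * p0123 ≤ p01 * p023 :=
    chain2 (y := p012) hp0 hp02 hp023 (by linarith [w0_12]) (by linarith [w02_13])
  have g0_2 : p0 * p0123 ≤ p02 * p013 :=
    chain2 (y := p012) hp0 hp01 hp013 (by linarith [w0_12]) (by linarith [w01_23])
  have g0_3 : p0 * p0123 ≤ p03 * p012 :=
    chain2 (y := p013) hp0 hp01 hp012 (by linarith [w0_13]) (by linarith [w01_23])
  have g1_0 : p1 * p0123 ≤ p01 * p123 :=
    chain2 (y := p012) hp1 hp12 hp123 (by linarith [w1_02]) (by linarith [w12_03])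
  have g1_2 : p1 * p0123 ≤ p12 * p013 :=
    chain2 (y := p012) hp1 hp01 hp013 (by linarith [w1_02]) (by linarith [w01_23])
  have g1_3 : p1 * p0123 ≤ p13 * p012 :=
    chain2 (y := p013) hp1 hp01 hp012 (by linarith [w1_03]) (by linarith [w01_23])
  have g2_0 : p2 * p0123 ≤ p02 * p123 :=
    chain2 (y := p012) hp2 hp12 hp123 (by linarith [w2_01]) (by linarith [w12_03])
  have g2_1 : p2 * p0123 ≤ p12 * p023 :=
    chain2 (y := p012) hp2 hp02 hp023 (by linarith [w2_01]) (by linarith [w02_13])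
  have g2_3 : p2 * p0123 ≤ p23 * p012 :=
    chain2 (y := p023) hp2 hp02 hp012 (by linarith [w2_03]) (by linarith [w02_13])
  have g3_0 : p3 * p0123 ≤ p03 * p123 :=
    chain2 (y := p013) hp3 hp13 hp123 (by linarith [w3_01]) (by linarith [w13_02])
  have g3_1 : p3 * p0123 ≤ p13 * p023 :=
    chain2 (y := p013) hp3 hp03 hp023 (by linarith [w3_01]) (by linarith [w03_12])
  have g3_2 : p3 * p0123 ≤ p23 * p013 :=
    chain2 (y := p023) hp3 hp03 hp013 (by linarith [w3_02]) (by linarith [w03_12])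
  rw [mem_spec, det4] at hμ
  simp [Matrix.sub_apply, Matrix.scalar_apply] at hμ
  refine hurwitz4 (E1 := p0 + p1 + p2 + p3) (E2 := p01 + p02 + p03 + p12 + p13 + p23)
    (E3 := p012 + p013 + p023 + p123) (E4 := p0123) (by positivity) (by positivity)
    (by positivity) (by positivity) ?_ ?_ ?_
  · have : 0 ≤ p0 * p01 + p0 * p02 + p0 * p03 + p1 * p01 + p1 * p12 + p1 * p13 + p2 * p02 + p2 * p12 + p2 * p23 + p3 * p03 + p3 * p13 + p3 * p23 := by positivity
    linarith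
  · have : 0 ≤ p01 * p012 + p01 * p013 + p02 * p012 + p02 * p023 + p03 * p013 + p03 * p023 + p12 * p012 + p12 * p123 + p13 * p013 + p13 * p123 + p23 * p023 + p23 * p123 := by positivity
    linarith
  · push_cast
    rw [ep0, ep1, ep2, ep3, ep01, ep02, ep03, ep12, ep13, ep23, ep012, ep013, ep023, ep123, ep0123]
    linear_combination hμ

/-! An unstable matrix of order five -/

def mz (i j : ℕ) : ℤ :=
  if i = 0 then 50625 else if j = 0 then 160 else if i = j then 161 else if i < j then 160 else 0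

def bz (i j : ℕ) : ℤ := if i = j then 161 else if i < j then 160 else 0

noncomputable def Mx (k : ℕ) : Matrix (Fin k) (Fin k) ℂ := Matrix.of fun i j => (mz i j : ℂ)

noncomputable def Bx (k : ℕ) : Matrix (Fin k) (Fin k) ℂ := Matrix.of fun i j => (bz i j : ℂ)

theorem detB (k : ℕ) (μ : ℂ) : (Bx k - Matrix.scalar _ μ).det = (161 - μ) ^ k := by
  rw [Matrix.det_of_isUpperTriangular]
  · simp [Bx, bz]
  · intro i j h
    have h' : j.val < i.val := h
    have : i ≠ j := ne_of_gt h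
    simp [Bx, bz, this, h'.ne']
    exact h'.le

theorem detM (j : ℕ) (hj : j ≤ 4) (μ : ℂ) : (Mx (j + 1) - Matrix.scalar _ μ).det =
    50625 * (1 - μ) ^ j - μ * (161 - μ) ^ j := by
  interval_cases j
  · simp [Mx, mz]
  · simp [Mx, mz, Matrix.det_fin_two]; ring
  · simp [Mx, mz, Matrix.det_fin_three]; ring
  · simp [Mx, mz, det4]; ring
  · have : Mx (4 + 1) - Matrix.scalar _ μ = !![50625 - μ, 50625, 50625, 50625, 50625;
        160, 161 - μ, 160, 160, 160; 160, 0, 161 - μ, 160, 160; 160, 0, 0, 161 - μ, 160;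
        160, 0, 0, 0, 161 - μ] := by
      ext i j
      fin_cases i <;> fin_cases j <;> simp [Mx, mz]
    rw [this, Matrix.det_succ_row_zero]
    simp [det4, Fin.sum_univ_succ, Fin.succAbove]
    ring

theorem mem_spec' {n : ℕ} {A : Matrix (Fin n) (Fin n) ℂ} {μ : ℂ} :
    μ ∈ spectrum ℂ A ↔ (A - Matrix.scalar _ μ).det = 0 := by
  rw [mem_spec, ← neg_sub, Matrix.det_neg]
  simp

theorem sub_cases {n j : ℕ} (α : Fin (j + 1) ↪o Fin n) :
    ((α 0).val = 0 ∧ (Mx n).submatrix α α = Mx (j + 1)) ∨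
    ((∀ i, (α i).val ≠ 0) ∧ (Mx n).submatrix α α = Bx (j + 1)) := by
  have h1 : ∀ a b, (α a).val = (α b).val ↔ a.val = b.val := fun a b => by
    rw [Fin.val_inj, Fin.val_inj, α.injective.eq_iff]
  have h2 : ∀ a b, (α a).val < (α b).val ↔ a.val < b.val := fun a b => α.lt_iff_lt
  by_cases h : (α 0).val = 0
  · refine Or.inl ⟨h, ?_⟩
    have h3 : ∀ a, (α a).val = 0 ↔ a.val = 0 := fun a => by
      have := h1 a 0
      rwa [h] at this
    ext a b
    simp only [Mx, mz, Matrix.submatrix_apply, Matrix.of_apply, h1, h2, h3]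
  · have h3 : ∀ a, (α a).val ≠ 0 := fun a => by
      have : (α 0).val ≤ (α a).val := α.monotone (Fin.zero_le a)
      omega
    refine Or.inr ⟨h3, ?_⟩
    ext a b
    simp only [Mx, Bx, mz, bz, Matrix.submatrix_apply, Matrix.of_apply, h1, h2, h3, if_false]

theorem len_le {k l : ℕ} {n : ℕ} (α : Fin k ↪o Fin n) (β : Fin l ↪o Fin n)
    (h : Set.range β ⊆ Set.range α) : l ≤ k := by
  have := Set.ncard_le_ncard h
  rwa [Set.ncard_range_of_injective β.injective, Set.ncard_range_of_injective α.injective,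
    Nat.card_fin, Nat.card_fin] at this

theorem len_le' {k n : ℕ} (α : Fin k ↪o Fin n) : k ≤ n := by
  simpa using Fintype.card_le_of_injective α α.injective

theorem specB {j : ℕ} {x : ℝ} : (x : ℂ) ∈ spectrum ℂ (Bx (j + 1)) ↔ x = 161 := by
  rw [mem_spec', detB, pow_eq_zero_iff (by omega), sub_eq_zero]
  norm_cast
  exact eq_comm

def ff (j : ℕ) (x : ℝ) : ℝ := 50625 * (1 - x) ^ j - x * (161 - x) ^ j

theorem specM {j : ℕ} (hj : j ≤ 4) {x : ℝ} : (x : ℂ) ∈ spectrum ℂ (Mx (j + 1)) ↔ ff j x = 0 := by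
  rw [mem_spec', detM j hj, ff]
  norm_cast

theorem ff_pos {j : ℕ} {x : ℝ} (hx : x ≤ 0) : 0 < ff j x := by
  unfold ff
  have h1 : 0 < (1 - x) ^ j := pow_pos (by linarith) j
  have h2 : 0 < (161 - x) ^ j := pow_pos (by linarith) j
  nlinarith

theorem ff_root {j : ℕ} {x : ℝ} (hx : 0 ≤ x) (h : ff j x ≤ 0) : ∃ y ≤ x, ff j y = 0 := by
  have hc : ContinuousOn (ff j) (Set.Icc 0 x) := by unfold ff; fun_prop
  obtain ⟨y, hy, h0⟩ := intermediate_value_Icc' hx hc ⟨h, (ff_pos le_rfl).le⟩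
  exact ⟨y, hy.2, h0⟩

theorem ff_one {j : ℕ} (hj : 0 < j) : ∃ y ≤ 1, ff j y = 0 :=
  ff_root zero_le_one (by simp [ff, hj.ne'])

theorem ff_mono {j j' : ℕ} (h : j ≤ j') {x : ℝ} (hx : ff j x = 0) : ∃ y ≤ x, ff j' y = 0 := by
  rcases h.eq_or_lt with rfl | h
  · exact ⟨x, le_rfl, hx⟩
  by_cases h1 : 1 ≤ x
  · obtain ⟨y, hy, h0⟩ := ff_one (j := j') (by omega)
    exact ⟨y, hy.trans h1, h0⟩
  have h0 : 0 < x := by
    by_contra hn
    exact (ff_pos (not_lt.1 hn)).ne' hx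
  refine ff_root h0.le ?_
  obtain ⟨m, rfl⟩ := Nat.exists_eq_add_of_le h.le
  unfold ff at *
  have h2 : (1 - x) ^ m ≤ (161 - x) ^ m := pow_le_pow_left₀ (by linarith) (by linarith) m
  have h3 : 0 ≤ x * (161 - x) ^ j := mul_nonneg h0.le (pow_nonneg (by linarith) j)
  have h4 := mul_le_mul_of_nonneg_left h2 h3
  rw [pow_add, pow_add, ← mul_assoc, sub_eq_zero.1 hx]
  linarith

theorem lowest_le' {k : ℕ} {A : Matrix (Fin k) (Fin k) ℂ} {x : ℝ} (h : (x : ℂ) ∈ spectrum ℂ A) :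
    lowest A ≤ x := sInf_le ⟨x, h, rfl⟩

theorem lowest_le {k l : ℕ} {A : Matrix (Fin k) (Fin k) ℂ} {B : Matrix (Fin l) (Fin l) ℂ}
    (h : ∀ x : ℝ, (x : ℂ) ∈ spectrum ℂ B → ∃ y ≤ x, ((y : ℝ) : ℂ) ∈ spectrum ℂ A) :
    lowest A ≤ lowest B := by
  refine le_sInf ?_
  rintro _ ⟨x, hx, rfl⟩
  obtain ⟨y, hy, hy'⟩ := h x hx
  exact (lowest_le' hy').trans (EReal.coe_le_coe_iff.2 hy)

theorem lowest_lt {k : ℕ} {A : Matrix (Fin k) (Fin k) ℂ} {x : ℝ} (h : (x : ℂ) ∈ spectrum ℂ A) :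
    lowest A < ⊤ := (lowest_le' h).trans_lt (EReal.coe_lt_top x)

theorem exP : IsP (Mx 5) := by
  intro k hk α
  obtain ⟨j, rfl⟩ : ∃ j, k = j + 1 := ⟨k - 1, by omega⟩
  have := len_le' α
  unfold minor
  rcases sub_cases α with ⟨-, h⟩ | ⟨-, h⟩
  · have h1 := detM j (by omega) 0
    simp only [map_zero, sub_zero, one_pow, mul_one, zero_mul] at h1
    rw [h, h1]; norm_num
  · have h1 := detB (j + 1) 0
    simp only [map_zero, sub_zero] at h1
    rw [h, h1]
    norm_cast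
    simp

theorem exOmega : IsOmega (Mx 5) := by
  intro k l hl α β h
  have h1 := len_le α β h
  have h2 := len_le' α
  obtain ⟨j, rfl⟩ : ∃ j, l = j + 1 := ⟨l - 1, by omega⟩
  obtain ⟨j', rfl⟩ : ∃ j, k = j + 1 := ⟨k - 1, by omega⟩
  rcases sub_cases β with ⟨b1, b2⟩ | ⟨b1, b2⟩ <;> rcases sub_cases α with ⟨a1, a2⟩ | ⟨a1, a2⟩ <;>
    rw [a2, b2]
  · refine ⟨lowest_le fun x hx => ?_, ?_⟩
    · simp only [specM (show j ≤ 4 by omega), specM (show j' ≤ 4 by omega)] at hx ⊢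
      exact ff_mono (by omega) hx
    · obtain ⟨y, -, hy⟩ := ff_mono (Nat.zero_le j) (x := 50625) (by simp [ff])
      exact lowest_lt ((specM (by omega)).2 hy)
  · obtain ⟨i, hi⟩ := h ⟨0, rfl⟩
    exact absurd (hi ▸ b1) (a1 i)
  · refine ⟨lowest_le fun x hx => ?_, lowest_lt (specB.2 rfl)⟩
    have h3 : 0 < j' := by
      by_contra hn
      obtain rfl : j' = 0 := by omega
      obtain ⟨i, hi⟩ := h ⟨0, rfl⟩
      rw [Subsingleton.elim (α := Fin 1) i 0] at hi
      exact b1 0 (hi ▸ a1)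
    obtain ⟨y, hy, h0⟩ := ff_one h3
    rw [specB] at hx
    exact ⟨y, by linarith, (specM (by omega)).2 h0⟩
  · exact ⟨lowest_le fun x hx => ⟨x, le_rfl, specB.2 (specB.1 hx)⟩, lowest_lt (specB.2 rfl)⟩

theorem exLow : 0 ≤ lowest (Mx 5) := by
  refine le_sInf ?_
  rintro _ ⟨x, hx, rfl⟩
  have h1 := (specM (j := 4) le_rfl).1 hx
  have : 0 ≤ x := by
    by_contra hn
    exact (ff_pos (not_le.1 hn).le).ne' h1
  exact EReal.coe_nonneg.2 this

def mzz {k : ℕ} (α β : Fin k → Fin 5) : Matrix (Fin k) (Fin k) ℤ :=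
  Matrix.of fun i j => mz (α i) (β j)

theorem minor_ex {k : ℕ} (α β : Fin k ↪o Fin 5) : minor (Mx 5) α β = ((mzz α β).det : ℤ) := by
  rw [Int.cast_det]; rfl

theorem wss2 : ∀ a b : Fin 5, a < b → ∀ c d : Fin 5, c < d →
    (Finset.univ.image ![a, b] ∩ Finset.univ.image ![c, d]).card + 1 = 2 →
    0 ≤ (mzz ![a, b] ![c, d]).det * (mzz ![c, d] ![a, b]).det := by
  simp only [Matrix.det_fin_two]
  decide +kernel

theorem wss3 : ∀ a b : Fin 5, a < b → ∀ c, b < c → ∀ a' b' : Fin 5, a' < b' → ∀ c', b' < c' →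
    (Finset.univ.image ![a, b, c] ∩ Finset.univ.image ![a', b', c']).card + 1 = 3 →
    0 ≤ (mzz ![a, b, c] ![a', b', c']).det * (mzz ![a', b', c'] ![a, b, c]).det := by
  simp only [Matrix.det_fin_three]
  decide +kernel

def d4 (M : Matrix (Fin 4) (Fin 4) ℤ) : ℤ :=
      M 0 0 * M 1 1 * M 2 2 * M 3 3 - M 0 0 * M 1 1 * M 2 3 * M 3 2 - M 0 0 * M 1 2 * M 2 1 * M 3 3
      + M 0 0 * M 1 2 * M 2 3 * M 3 1 + M 0 0 * M 1 3 * M 2 1 * M 3 2 - M 0 0 * M 1 3 * M 2 2 * M 3 1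
      - M 0 1 * M 1 0 * M 2 2 * M 3 3 + M 0 1 * M 1 0 * M 2 3 * M 3 2 + M 0 1 * M 1 2 * M 2 0 * M 3 3
      - M 0 1 * M 1 2 * M 2 3 * M 3 0 - M 0 1 * M 1 3 * M 2 0 * M 3 2 + M 0 1 * M 1 3 * M 2 2 * M 3 0
      + M 0 2 * M 1 0 * M 2 1 * M 3 3 - M 0 2 * M 1 0 * M 2 3 * M 3 1 - M 0 2 * M 1 1 * M 2 0 * M 3 3
      + M 0 2 * M 1 1 * M 2 3 * M 3 0 + M 0 2 * M 1 3 * M 2 0 * M 3 1 - M 0 2 * M 1 3 * M 2 1 * M 3 0
      - M 0 3 * M 1 0 * M 2 1 * M 3 2 + M 0 3 * M 1 0 * M 2 2 * M 3 1 + M 0 3 * M 1 1 * M 2 0 * M 3 2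
      - M 0 3 * M 1 1 * M 2 2 * M 3 0 - M 0 3 * M 1 2 * M 2 0 * M 3 1 + M 0 3 * M 1 2 * M 2 1 * M 3 0

theorem det_eq_d4 (M : Matrix (Fin 4) (Fin 4) ℤ) : M.det = d4 M := det4 M

set_option synthInstance.maxSize 1024 in
theorem wss4 : ∀ a b : Fin 5, a < b → ∀ c, b < c → ∀ d, c < d →
    ∀ a' b' : Fin 5, a' < b' → ∀ c', b' < c' → ∀ d', c' < d' →
    0 ≤ (mzz ![a, b, c, d] ![a', b', c', d']).det * (mzz ![a', b', c', d'] ![a, b, c, d]).det := by
  simp only [det_eq_d4]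
  decide +kernel

theorem exWSS : WeaklySignSymmetric (Mx 5) := by
  intro k α β h
  rw [minor_ex, minor_ex]
  suffices 0 ≤ (mzz α β).det * (mzz β α).det by
    norm_cast
  have h1 := Finset.card_union_add_card_inter (Finset.univ.image α) (Finset.univ.image β)
  have h2 := Finset.card_le_univ (Finset.univ.image α ∪ Finset.univ.image β)
  rw [Finset.card_image_of_injective _ α.injective,
    Finset.card_image_of_injective _ β.injective] at h1
  simp only [Finset.card_univ, Fintype.card_fin] at h1 h2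
  obtain rfl | rfl | rfl | rfl : k = 1 ∨ k = 2 ∨ k = 3 ∨ k = 4 := by omega
  · simp only [Matrix.det_fin_one, mzz, Matrix.of_apply]
    apply mul_nonneg <;> unfold mz <;> split_ifs <;> norm_num
  · have e : ∀ γ : Fin 2 ↪o Fin 5, ⇑γ = ![γ 0, γ 1] := fun γ => by
      ext i; fin_cases i <;> rfl
    rw [e α, e β] at h ⊢
    exact wss2 _ _ (α.strictMono (by decide)) _ _ (β.strictMono (by decide)) h
  · have e : ∀ γ : Fin 3 ↪o Fin 5, ⇑γ = ![γ 0, γ 1, γ 2] := fun γ => by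
      ext i; fin_cases i <;> rfl
    rw [e α, e β] at h ⊢
    exact wss3 _ _ (α.strictMono (by decide)) _ (α.strictMono (by decide)) _ _
      (β.strictMono (by decide)) _ (β.strictMono (by decide)) h
  · have e : ∀ γ : Fin 4 ↪o Fin 5, ⇑γ = ![γ 0, γ 1, γ 2, γ 3] := fun γ => by
      ext i; fin_cases i <;> rfl
    rw [e α, e β]
    exact wss4 _ _ (α.strictMono (by decide)) _ (α.strictMono (by decide)) _
      (α.strictMono (by decide)) _ _ (β.strictMono (by decide)) _ (β.strictMono (by decide)) _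
      (β.strictMono (by decide))

theorem exUnstable : ¬ Stable (Mx 5) := by
  intro h
  have := h ⟨-7, 24⟩ (by
    rw [mem_spec', detM 4 le_rfl]
    apply Complex.ext <;> simp [pow_succ] <;> norm_num)
  norm_num at this

/-- The largest `N` such that every GKK tau-matrix of order at most `N` is stable is `4`. -/
theorem result :
    IsGreatest {N : ℕ | ∀ n ≤ N, ∀ A : Matrix (Fin n) (Fin n) ℂ, IsGKK A → IsTau A → Stable A}
      4 := by
  constructor
  · intro n hn A hA _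
    interval_cases n
    · intro μ hμ
      rw [mem_spec] at hμ
      simp at hμ
    · exact stable1 hA
    · exact stable2 hA
    · exact stable3 hA
    · exact stable4 hA
  · intro N hN
    by_contra hn
    exact exUnstable (hN 5 (by omega) _ ⟨exP, exWSS⟩ ⟨exOmega, exP, exLow⟩)

end Pool.Agent.Results.MP_f9eabf_al.Exact
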