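import Mathlib
import Pool.Agent.Lib.Gkk.SetFun
import Pool.Agent.Lib.Gkk.Det
import Pool.Agent.Lib.Gkk.Family

set_option autoImplicit false

namespace Pool.Agent.Results.MP_f9eabf_al.Wedge

open Pool.Agent.Lib.Gkk

/-- The minor with rows `α` and columns `β`, both increasing sequences of length `k`. -/
noncomputable def minor {n k : ℕ} (A : Matrix (Fin n) (Fin n) ℂ) (α β : Fin k ↪o Fin n) : ℂ :=
  (A.submatrix α β).det

/-- All principal minors are positive real numbers. -/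
def IsP {n : ℕ} (A : Matrix (Fin n) (Fin n) ℂ) : Prop :=
  ∀ k : ℕ, 0 < k → ∀ α : Fin k ↪o Fin n, 0 < (minor A α α).re ∧ (minor A α α).im = 0

/-- Products of opposite almost principal minors are nonnegative real numbers. -/
def WeaklySignSymmetric {n : ℕ} (A : Matrix (Fin n) (Fin n) ℂ) : Prop :=
  ∀ k : ℕ, ∀ α β : Fin k ↪o Fin n,
    (Finset.univ.image α ∩ Finset.univ.image β).card + 1 = k →
      0 ≤ (minor A α β * minor A β α).re ∧ (minor A α β * minor A β α).im = 0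

def IsGKK {n : ℕ} (A : Matrix (Fin n) (Fin n) ℂ) : Prop := IsP A ∧ WeaklySignSymmetric A

/-- The least real eigenvalue, and `⊤` if there is none. -/
noncomputable def lowest {n : ℕ} (A : Matrix (Fin n) (Fin n) ℂ) : EReal :=
  sInf ((fun x : ℝ => (x : EReal)) '' {x : ℝ | (x : ℂ) ∈ spectrum ℂ A})

def IsOmega {n : ℕ} (A : Matrix (Fin n) (Fin n) ℂ) : Prop :=
  ∀ k l : ℕ, 0 < l → ∀ (α : Fin k ↪o Fin n) (β : Fin l ↪o Fin n), Set.range β ⊆ Set.range α →
    lowest (A.submatrix α α) ≤ lowest (A.submatrix β β) ∧ lowest (A.submatrix β β) < ⊤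

def IsTau {n : ℕ} (A : Matrix (Fin n) (Fin n) ℂ) : Prop := IsOmega A ∧ IsP A ∧ 0 ≤ lowest A

/-- The open wedge of half-angle `π - π / (n - 2)` round the positive real axis. -/
def wedge (n : ℕ) : Set ℂ := {μ | μ ≠ 0 ∧ |μ.arg| < Real.pi - Real.pi / ((n : ℝ) - 2)}

theorem pm_real {n : ℕ} {A : Matrix (Fin n) (Fin n) ℂ} (h : IsP A) (S : Finset (Fin n)) :
    0 < (pm A S).re ∧ pm A S = ((pm A S).re : ℂ) := by
  rcases S.eq_empty_or_nonempty with rfl | hS
  · simp [pm_empty]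
  · have h1 := h S.card hS.card_pos (S.orderEmbOfFin rfl)
    unfold minor at h1
    rw [det_range A (S.orderEmbOfFin rfl).injective (S.range_orderEmbOfFin rfl)] at h1
    exact ⟨h1.1, Complex.ext rfl (by simp [h1.2])⟩

theorem sub_of_gkk {n : ℕ} {A : Matrix (Fin n) (Fin n) ℂ} (h : IsGKK A) :
    Sub fun S => (pm A S).re := by
  intro S i j hi hj hij
  have ne : pm A S ≠ 0 := fun h0 => by
    have := (pm_real h.1 S).1
    simp [h0] at this
  have h1 := (h.2 (S.card + 1) ((insert i S).orderEmbOfFin (Finset.card_insert_of_notMem hi))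
    ((insert j S).orderEmbOfFin (Finset.card_insert_of_notMem hj)) (by
      rw [Finset.image_orderEmbOfFin_univ, Finset.image_orderEmbOfFin_univ]
      congr 2
      ext x
      simp only [Finset.mem_inter, Finset.mem_insert]
      constructor
      · rintro ⟨rfl | h1, h2 | h2⟩
        · exact absurd h2 hij
        · exact h2
        · exact h1
        · exact h1
      · exact fun hx => ⟨Or.inr hx, Or.inr hx⟩)).1
  unfold minor at h1
  rw [sylvester A hi hj hij ne (RelEmbedding.injective _) (RelEmbedding.injective _)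
    (Finset.range_orderEmbOfFin _ _) (Finset.range_orderEmbOfFin _ _), (pm_real h.1 S).2,
    (pm_real h.1 (insert i S)).2, (pm_real h.1 (insert j S)).2,
    (pm_real h.1 (insert i (insert j S))).2] at h1
  norm_cast at h1
  simp only
  linarith

theorem wss_of_sub {n : ℕ} {A : Matrix (Fin n) (Fin n) ℂ} (h : IsP A)
    (hs : Sub fun S => (pm A S).re) : WeaklySignSymmetric A := by
  intro k α β hk
  set S := Finset.univ.image α ∩ Finset.univ.image β with hS
  have c : ∀ γ : Fin k ↪o Fin n, S ⊆ Finset.univ.image γ →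
      ∃ i, i ∉ S ∧ insert i S = Finset.univ.image γ := by
    intro γ hγ
    refine Finset.exists_eq_insert_iff.2 ⟨hγ, ?_⟩
    rw [Finset.card_image_of_injective _ γ.injective, Finset.card_univ, Fintype.card_fin, hk]
  obtain ⟨i, hi, ei⟩ := c α Finset.inter_subset_left
  obtain ⟨j, hj, ej⟩ := c β Finset.inter_subset_right
  have hij : i ≠ j := by
    rintro rfl
    exact hi (Finset.mem_inter.2 ⟨ei ▸ Finset.mem_insert_self _ _, ej ▸ Finset.mem_insert_self _ _⟩)
  have ne : pm A S ≠ 0 := fun h0 => by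
    have := (pm_real h S).1
    simp [h0] at this
  have h1 := hs S i j hi hj hij
  unfold minor
  rw [sylvester A hi hj hij ne α.injective β.injective (by rw [ei]; simp) (by rw [ej]; simp),
    (pm_real h S).2, (pm_real h (insert i S)).2, (pm_real h (insert j S)).2,
    (pm_real h (insert i (insert j S))).2]
  norm_cast
  simp only at h1
  exact ⟨by linarith, rfl⟩

theorem upper {n : ℕ} (hn : 4 ≤ n) {A : Matrix (Fin n) (Fin n) ℂ} (h : IsGKK A) {μ : ℂ}
    (hμ : μ ∈ spectrum ℂ A) : μ ∈ wedge n := by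
  rw [mem_spec] at hμ
  have h0 : μ ≠ 0 := by
    rintro rfl
    have h1 := (pm_real h.1 Finset.univ).1
    rw [← det_range A (f := id) Function.injective_id (by simp)] at h1
    simp only [zero_smul, sub_zero] at hμ
    simp [hμ] at h1
  refine ⟨h0, ?_⟩
  by_contra hc
  have hn' : (0 : ℝ) < (n : ℝ) - 2 := by
    have : (4 : ℝ) ≤ n := by exact_mod_cast hn
    linarith
  have hc' : ((n : ℝ) - 2) * (Real.pi - |μ.arg|) ≤ Real.pi := by
    rw [mul_comm, ← le_div_iff₀ hn']
    linarith [not_lt.1 hc]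
  have hr : 0 < ‖μ‖ := norm_pos_iff.2 h0
  obtain ⟨φ, h1, h2⟩ : ∃ φ : ℝ, |φ| = Real.pi - |μ.arg| ∧
      Complex.exp (φ * Complex.I) * Complex.exp (μ.arg * Complex.I) = -1 := by
    rcases abs_cases μ.arg with ⟨h2, -⟩ | ⟨h2, -⟩
    · refine ⟨Real.pi - μ.arg, ?_, ?_⟩
      · rw [h2, abs_of_nonneg (by linarith [μ.arg_le_pi])]
      · rw [← Complex.exp_add, ← Complex.exp_pi_mul_I]
        congr 1
        push_cast
        ring
    · refine ⟨-(Real.pi + μ.arg), ?_, ?_⟩
      · rw [h2, abs_neg, abs_of_nonneg (by linarith [μ.neg_pi_lt_arg])]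
        ring
      · rw [← Complex.exp_add, ← Complex.exp_neg_pi_mul_I]
        congr 1
        push_cast
        ring
  have hz : (((‖μ‖⁻¹ : ℝ) : ℂ) * Complex.exp (φ * Complex.I)) * μ = -1 := by
    have h3 := Complex.norm_mul_exp_arg_mul_I μ
    have h4 : ((‖μ‖⁻¹ : ℝ) : ℂ) * (‖μ‖ : ℂ) = 1 := by
      rw [← Complex.ofReal_mul, inv_mul_cancel₀ hr.ne', Complex.ofReal_one]
    linear_combination (-(((‖μ‖⁻¹ : ℝ) : ℂ) * Complex.exp (φ * Complex.I))) * h3 + h2 +
      (Complex.exp (φ * Complex.I) * Complex.exp (μ.arg * Complex.I)) * h4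
  refine zero_free (fun S => (pm_real h.1 S).1) (sub_of_gkk h) (by simpa using hn) (inv_pos.2 hr)
    (φ := φ) (by rw [h1, Fintype.card_fin]; exact hc') ?_
  simp only [← fun S => (pm_real h.1 S).2]
  rw [← det_smul_add_one]
  generalize ((‖μ‖⁻¹ : ℝ) : ℂ) * Complex.exp (φ * Complex.I) = z at hz
  have e : z • A + 1 = z • (A - μ • 1) := by
    rw [smul_sub, smul_smul, hz, neg_smul, one_smul, sub_neg_eq_add]
  rw [e, Matrix.det_smul, hμ, mul_zero]

theorem lowest_le' {k : ℕ} {A : Matrix (Fin k) (Fin k) ℂ} {x : ℝ} (h : (x : ℂ) ∈ spectrum ℂ A) :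
    lowest A ≤ x := sInf_le ⟨x, h, rfl⟩

theorem lowest_le {k l : ℕ} {A : Matrix (Fin k) (Fin k) ℂ} {B : Matrix (Fin l) (Fin l) ℂ}
    (h : ∀ x : ℝ, (x : ℂ) ∈ spectrum ℂ B → ∃ y ≤ x, ((y : ℝ) : ℂ) ∈ spectrum ℂ A) :
    lowest A ≤ lowest B := by
  refine le_sInf ?_
  rintro _ ⟨x, hx, rfl⟩
  obtain ⟨y, hy, hy'⟩ := h x hx
  exact (lowest_le' hy').trans (EReal.coe_le_coe_iff.2 hy)

theorem lowest_lt {k : ℕ} {A : Matrix (Fin k) (Fin k) ℂ} {x : ℝ} (h : (x : ℂ) ∈ spectrum ℂ A) :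
    lowest A < ⊤ := (lowest_le' h).trans_lt (EReal.coe_lt_top x)

variable {a b w : ℝ}

theorem minor_fam {n k : ℕ} (α : Fin (k + 1) ↪o Fin n) :
    minor (fam n a b w) α α = ((if (α 0).val = 0 then w * b ^ k else a ^ (k + 1) : ℝ) : ℂ) := by
  unfold minor
  rcases sub_cases a b w α with ⟨h0, h⟩ | ⟨h0, h⟩
  · have h1 := det_fam k a b w 0
    simp only [zero_smul, sub_zero, zero_mul] at h1
    rw [h, h1, if_pos h0]
    norm_cast
  · have h1 := det_tri (k + 1) a b 0
    simp only [zero_smul, sub_zero] at h1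
    rw [h, h1, if_neg (h0 0)]
    norm_cast

theorem famP (hb : 0 < b) (hab : b < a) (hw : 0 < w) (n : ℕ) : IsP (fam n a b w) := by
  intro k hk α
  obtain ⟨j, rfl⟩ : ∃ j, k = j + 1 := ⟨k - 1, by omega⟩
  have ha : 0 < a := hb.trans hab
  rw [minor_fam, Complex.ofReal_re, Complex.ofReal_im]
  refine ⟨?_, rfl⟩
  split_ifs <;> positivity

theorem pm_fam {m : ℕ} (S : Finset (Fin (m + 1))) :
    (pm (fam (m + 1) a b w) S).re = if 0 ∈ S then w * b ^ (S.card - 1) else a ^ S.card := by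
  rcases S.eq_empty_or_nonempty with rfl | hS
  · simp [pm_empty]
  · obtain ⟨k, hk⟩ : ∃ k, S.card = k + 1 := ⟨S.card - 1, by have := hS.card_pos; omega⟩
    have h1 := minor_fam (a := a) (b := b) (w := w) (S.orderEmbOfFin hk)
    unfold minor at h1
    rw [det_range _ (S.orderEmbOfFin hk).injective (S.range_orderEmbOfFin hk)] at h1
    rw [h1, Complex.ofReal_re, hk, Nat.add_sub_cancel]
    refine if_congr ⟨fun h => ?_, fun h => ?_⟩ rfl rfl
    · have h2 : S.orderEmbOfFin hk 0 = 0 := Fin.ext h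
      exact h2 ▸ S.orderEmbOfFin_mem hk 0
    · obtain ⟨i, hi⟩ : (0 : Fin (m + 1)) ∈ Set.range (S.orderEmbOfFin hk) := by
        rw [S.range_orderEmbOfFin hk]; exact h
      have h2 : S.orderEmbOfFin hk 0 ≤ 0 := hi ▸ (S.orderEmbOfFin hk).monotone (Fin.zero_le i)
      exact Nat.le_zero.1 h2

theorem famSub (hb : 0 < b) (hab : b < a) (hw : 0 < w) (m : ℕ) :
    Sub fun S => (pm (fam (m + 1) a b w) S).re := by
  intro S i j hi hj hij
  have ha : 0 < a := hb.trans hab
  have hi' : i ∉ insert j S := by simp [hi, hij]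
  simp only [pm_fam, Finset.card_insert_of_notMem hi', Finset.card_insert_of_notMem hi,
    Finset.card_insert_of_notMem hj, Finset.mem_insert, Nat.add_sub_cancel]
  have h1 : 0 ≤ w * b ^ S.card * a ^ S.card * (a - b) := by
    have := sub_pos.2 hab
    positivity
  by_cases h0 : (0 : Fin (m + 1)) ∈ S
  · obtain ⟨k, hk⟩ : ∃ k, S.card = k + 1 :=
      ⟨S.card - 1, by have := Finset.card_pos.2 ⟨_, h0⟩; omega⟩
    simp only [h0, or_true, if_true, hk, Nat.add_sub_cancel]
    exact le_of_eq (by ring)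
  · by_cases h2 : 0 = i
    · have h3 : ¬ 0 = j := fun h => hij (h2.symm.trans h)
      simp only [h0, h3, or_false, if_false, if_pos h2, pow_succ]
      linarith
    · by_cases h3 : 0 = j
      · simp only [h0, h2, or_false, false_or, if_false, if_pos h3, pow_succ]
        linarith
      · simp only [h0, h2, h3, or_false, if_false]
        exact le_of_eq (by ring)

theorem len_le {n k l : ℕ} (α : Fin k ↪o Fin n) (β : Fin l ↪o Fin n)
    (h : Set.range β ⊆ Set.range α) : l ≤ k := by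
  have h1 := Set.ncard_le_ncard h (Set.toFinite _)
  rwa [Set.ncard_range_of_injective β.injective, Set.ncard_range_of_injective α.injective,
    Nat.card_fin, Nat.card_fin] at h1

theorem famOmega (hb : 0 < b) (hab : b < a) (hw : 0 < w) (n : ℕ) : IsOmega (fam n a b w) := by
  intro k l hl α β h
  have h1 := len_le α β h
  obtain ⟨j, rfl⟩ : ∃ j, l = j + 1 := ⟨l - 1, by omega⟩
  obtain ⟨j', rfl⟩ : ∃ j, k = j + 1 := ⟨k - 1, by omega⟩
  rcases sub_cases a b w β with ⟨b1, b2⟩ | ⟨b1, b2⟩ <;>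
    rcases sub_cases a b w α with ⟨a1, a2⟩ | ⟨a1, a2⟩ <;> rw [a2, b2]
  · refine ⟨lowest_le fun x hx => ?_, ?_⟩
    · simp only [spec_fam] at hx ⊢
      exact ff_mono hb hab hw (by omega) hx
    · obtain ⟨y, -, hy⟩ := ff_mono hb hab hw (Nat.zero_le j) (x := w) (by simp [ff])
      exact lowest_lt (spec_fam.2 hy)
  · obtain ⟨i, hi⟩ := h ⟨0, rfl⟩
    exact absurd (hi ▸ b1) (a1 i)
  · refine ⟨lowest_le fun x hx => ?_, lowest_lt (spec_tri.2 rfl)⟩
    have h3 : 0 < j' := by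
      by_contra hn
      obtain rfl : j' = 0 := by omega
      obtain ⟨i, hi⟩ := h ⟨0, rfl⟩
      rw [Subsingleton.elim (α := Fin 1) i 0] at hi
      exact b1 0 (hi ▸ a1)
    obtain ⟨y, hy, h0⟩ := ff_one hb hab hw h3
    rw [spec_tri] at hx
    exact ⟨y, by linarith, spec_fam.2 h0⟩
  · exact ⟨lowest_le fun x hx => ⟨x, le_rfl, spec_tri.2 (spec_tri.1 hx)⟩,
      lowest_lt (spec_tri.2 rfl)⟩

theorem famLow (hb : 0 < b) (hab : b < a) (hw : 0 < w) (m : ℕ) :
    0 ≤ lowest (fam (m + 1) a b w) := by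
  refine le_sInf ?_
  rintro _ ⟨x, hx, rfl⟩
  have h1 := spec_fam.1 hx
  have : 0 ≤ x := by
    by_contra hn
    exact (ff_pos hb hab hw (not_le.1 hn).le).ne' h1
  exact EReal.coe_nonneg.2 this

theorem lower {n : ℕ} (hn : 4 ≤ n) {μ : ℂ} (hμ : μ ∈ wedge n) :
    ∃ A : Matrix (Fin n) (Fin n) ℂ, IsGKK A ∧ IsTau A ∧ μ ∈ spectrum ℂ A := by
  obtain ⟨m, rfl⟩ : ∃ m, n = m + 1 := ⟨n - 1, by omega⟩
  obtain ⟨a, b, w, hb, hab, hw, e⟩ := attain (m := m) (by omega) hμ.1 (by
    have h := hμ.2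
    push_cast at h
    rwa [show (m : ℝ) + 1 - 2 = m - 1 by ring] at h)
  have hP := famP hb hab hw (m + 1)
  exact ⟨fam (m + 1) a b w, ⟨hP, wss_of_sub hP (famSub hb hab hw m)⟩,
    ⟨famOmega hb hab hw _, hP, famLow hb hab hw m⟩, by rw [mem_spec, det_fam, e]⟩

/-- For `n ≥ 4` the eigenvalues of the GKK tau-matrices of order `n` fill exactly the open wedge
of half-angle `π - π / (n - 2)`. -/
theorem result : ∀ n : ℕ, 4 ≤ n →
    {μ : ℂ | ∃ A : Matrix (Fin n) (Fin n) ℂ, IsGKK A ∧ IsTau A ∧ μ ∈ spectrum ℂ A} = wedge n :=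
  fun _ hn => Set.ext fun _ => ⟨fun ⟨_, h, _, h'⟩ => upper hn h h', lower hn⟩

end Pool.Agent.Results.MP_f9eabf_al.Wedge
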